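import Pool.Agent.L0h86.XF.Stm
import Pool.Agent.L0h2.P.CEL2

/-!
# Project XF (helper86), module CEL7: the systems of project P as systems of the field `ℚ(√-7)`
-/

set_option autoImplicit false
set_option linter.unusedSectionVars false
set_option linter.unusedVariables false

open scoped Classical

namespace Pool.Agent.L0h38.XF

open Finset
open Pool.Agent.Y698 Pool.Agent.Y698.SG
open Pool.Agent.N973.ND (Pr m7 uu)
open Pool.Agent.Y703.CQ (nr c2)
open Pool.Agent.L0h74.EV (QPw NSA Cl n2)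
open Pool.Agent.L0h74.AP (Cp)
open Pool.Agent.L0h86.XF

/-- the symbols of project P -/
def dX (d : Pool.Agent.L0h74.EV.Dt) : Dt :=
  { f := false, t := d.t, A := d.A, A2 := d.A2, b := d.b, b2 := d.b2 }

/-- the systems of project P -/
def toX (s : Pool.Agent.L0h2.P.Sy) : Sy := ⟨dX s.d, s.W⟩

theorem mF_false (p : ℕ) : mF false p = m7 p := rfl

theorem ty_false (p : ℕ) : ty false p = Pool.Agent.N973.ND.ty p := rfl

theorem PrF_false (p : ℕ) : PrF false p ↔ Pr p := Iff.rfl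

theorem kd_false (S : Finset ℕ) : kd false S = Pool.Agent.N973.ND.kd S := rfl

theorem recA_false (A : ℕ → ℕ → ZMod 2) : RecA false A ↔ Pool.Agent.N973.ND.RecA A := Iff.rfl

section
variable (d : Pool.Agent.L0h74.EV.Dt)

theorem tyO_dX (x : Option ℕ) : tyO (dX d) x = Pool.Agent.L0h74.EV.tyO d.t x := by
  rcases x with _ | x <;> rfl

theorem eO_dX (x y : Option ℕ) : eO (dX d) x y = Pool.Agent.L0h74.EV.eO d x y := by
  rcases x with _ | x <;> rcases y with _ | y <;> rfl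

theorem bO_dX (x : Option ℕ) : bO (dX d) x = Pool.Agent.L0h74.EV.bO d x := by
  rcases x with _ | x <;> rfl

variable {d}

theorem mO_dX (ht : d.t = 2 ∨ d.t = 3) (x : Option ℕ) : mO (dX d) x = Pool.Agent.L0h74.EV.m7O x := by
  rcases x with _ | x
  · show d.t / 2 = 1
    omega
  · rfl

theorem nO_dX (ht : d.t = 2 ∨ d.t = 3) (x y : Option ℕ) :
    nO (dX d) x y = Pool.Agent.L0h74.EV.nO d.t x y := by
  rcases x with _ | x <;> rcases y with _ | y
  · rfl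
  · show n2 y + (if d.t % 2 = 1 then uu y else 0) = n2 y + (if d.t = 3 then uu y else 0)
    rcases ht with h | h <;> rw [h] <;> norm_num
  · rfl
  · rfl

theorem GRO_dX {V : Type} [Fintype V] (ht : d.t = 2 ∨ d.t = 3) (r : V → Option ℕ) :
    GRO (dX d) r ↔ Pool.Agent.L0h74.EV.GRO d r := by
  unfold GRO Pool.Agent.L0h74.EV.GRO
  simp only [mO_dX ht, tyO_dX, nO_dX ht, eO_dX, bO_dX]

end

section
variable {s : Pool.Agent.L0h2.P.Sy}

theorem GdS_toX (ht : s.d.t = 2 ∨ s.d.t = 3) (S : Finset ℕ) :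
    GdS (toX s) S ↔ Pool.Agent.L0h2.P.GdS s S := GRO_dX ht _

theorem kW_toX : kW (toX s) = Pool.Agent.L0h2.P.kW s := by
  unfold kW Pool.Agent.L0h2.P.kW
  show ((s.W.filter fun x => tyO (dX s.d) x = 3).card : ℤ) -
    ((s.W.filter fun x => tyO (dX s.d) x = 1).card : ℤ) = _
  simp only [tyO_dX]

theorem dg_toX (ht : s.d.t = 2 ∨ s.d.t = 3) (p : ℕ) : dg (toX s) p = Pool.Agent.L0h2.P.dg s p := by
  unfold dg Pool.Agent.L0h2.P.dg
  show s.d.b p + ∑ v ∈ s.W, nO (dX s.d) v (some p) = _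
  simp only [nO_dX ht]

end

/-- the system of the numbers `g m`, `m ≡ a`, for `X_0(49)` -/
noncomputable def sys7 (w : ℕ → RR) (g a : ℕ) : Sy := toX (Pool.Agent.L0h2.P.sys w g a)

section
variable {Qf Pf : ℕ → Finset ℕ} {w : ℕ → RR} {u a g : ℕ}

theorem sys7_f : (sys7 w g a).d.f = false := rfl

theorem sys7_t4 : (sys7 w g a).d.t < 4 := by
  have h := Pool.Agent.L0h2.P.sys_t (w := w) g a
  show (Pool.Agent.L0h2.P.sys w g a).d.t < 4
  omega

/-- **The good numbers `g m`.** -/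
theorem nsa_sys7 (h : QPw Qf Pf w) (hc : Cp u a) (h8 : 8 ∣ u) {m : ℕ} (hg : Squarefree g)
    (h7 : ¬ 7 ∣ g) (hu : ∀ p, p.Prime → p ∣ g → p ∣ u) (hm : Squarefree m) (hma : m % u = a) :
    NSA Qf Pf w (g * m) ↔ GdS (sys7 w g a) m.primeFactors :=
  (Pool.Agent.L0h2.P.nsa_sys h hc h8 hg h7 hu hm hma).trans
    (GdS_toX (Pool.Agent.L0h2.P.sys_t g a) _).symm

theorem sys7_rec (h : QPw Qf Pf w) : RecA (sys7 w g a).d.f (sys7 w g a).d.A :=
  Pool.Agent.L0h2.P.sys_rec h g a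

theorem sys7_W (hg : Squarefree g) (h7 : ¬ 7 ∣ g) :
    ∀ v ∈ (sys7 w g a).W, PrO (sys7 w g a).d.f v := by
  intro v hv
  rcases Pool.Agent.L0h2.P.sys_W _ _ v hv with rfl | ⟨p, hp, rfl⟩
  · exact trivial
  · exact Pool.Agent.L0h2.P.pr_od hg h7 p hp

theorem sys7_Wu (hg : Squarefree g) (h7 : ¬ 7 ∣ g) (hu : ∀ p, p.Prime → p ∣ g → p ∣ u) :
    ∀ p, some p ∈ (sys7 w g a).W → p ∣ u := by
  intro p hp
  rcases Pool.Agent.L0h2.P.sys_W _ _ _ hp with h1 | ⟨p', hp', h1⟩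
  · exact absurd h1 (by simp)
  · rw [Option.some_injective _ h1]
    have h2 := Pool.Agent.L0h2.P.pr_od hg h7 p' hp'
    exact hu p' h2.1 ((Pool.Agent.L0h2.P.dvd_od hg h2.1 h2.2.1).1 (Nat.dvd_of_mem_primeFactors hp'))

theorem sys7_par (h4 : 4 ∣ u) (ha : a % 2 = 1) (hg : Squarefree g) (h7 : ¬ 7 ∣ g) :
    ∀ S, Cl u a S → (kW (sys7 w g a) + kd (sys7 w g a).d.f S) % 2 = 0 := by
  intro S hS
  have h := Pool.Agent.L0h2.P.sys_par (w := w) h4 ha hg h7 hS
  rw [← kW_toX] at h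
  exact h

/-- the diagonal of the system -/
theorem sys7_dg {q : ℕ} (hq : uu q = 0) : dg (sys7 w g a) q =
    lg (e7 (w q)) + (∑ r ∈ (Pool.Agent.L0h2.P.od g).primeFactors, nr r q +
      if g % 2 = 1 then 0 else n2 q) := by
  rw [sys7, dg_toX (Pool.Agent.L0h2.P.sys_t g a)]
  exact Pool.Agent.L0h2.P.sys_dg g a hq

/-- the diagonal of the system at the primes of type `2` -/
theorem sys7_dgq : ∀ q, ty false q = 2 → dg (sys7 w g a) q =
    lg (e7 (w q)) + (∑ r ∈ (Pool.Agent.L0h2.P.od g).primeFactors, nr r q +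
      if g % 2 = 1 then 0 else n2 q) := by
  intro q k1
  rw [ty_false] at k1
  refine sys7_dg ?_
  rcases Pool.Agent.L0h1.KD.ty_cases q with h | h | h | h
  · exact h.2.2
  · rw [h.1] at k1; omega
  · exact h.2.2
  · rw [h.1] at k1; omega

/-- the separating classes -/
theorem cls7 (hCLS : Pool.Agent.L0h2.P.S_CLS) (h56 : 56 ∣ u) (hu0 : 0 < u) {r : ℕ} (hr : r.Prime)
    (hru : r ∣ u) (hr7 : r ≠ 7) : ∃ c : ℕ, c < 7 * u ∧ c.Coprime (7 * u) ∧
      ∀ q, q.Prime → q % (7 * u) = c → ty false q = 2 ∧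
        ∀ (w : ℕ → RR) (g a : ℕ), Squarefree g → ¬ 7 ∣ g → (∀ p, p.Prime → p ∣ g → p ∣ u) →
          dg (sys7 w g a) q + (if r ∣ g then 1 else 0) = lg (e7 (w q)) := by
  have hr' : r = 2 ∨ (Pr r ∧ r ∣ u) := by
    by_cases h2 : r = 2
    · exact Or.inl h2
    · exact Or.inr ⟨⟨hr, h2, hr7⟩, hru⟩
  obtain ⟨c, h1, h2, h3⟩ := hCLS u h56 hu0 r hr'
  refine ⟨c, h1, h2, fun q hq hqc => ?_⟩
  have hcop : Nat.Coprime q (7 * u) := by
    rw [Nat.coprime_iff_gcd_eq_one, Nat.gcd_comm, Nat.gcd_rec, hqc]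
    exact h2
  have hq2 : q ≠ 2 := by
    rintro rfl
    have h4 : 2 ∣ 7 * u := Dvd.dvd.mul_left ((by norm_num : 2 ∣ 56).trans h56) 7
    have h5 := Nat.dvd_gcd (dvd_refl 2) h4
    rw [hcop] at h5
    omega
  have hq7 : q ≠ 7 := by
    rintro rfl
    have h5 := Nat.dvd_gcd (dvd_refl 7) (Dvd.intro u rfl : 7 ∣ 7 * u)
    rw [hcop] at h5
    omega
  obtain ⟨k1, k2, k3⟩ := h3 q ⟨hq, hq2, hq7⟩ hqc
  have hq0 : uu q = 0 := by
    rcases Pool.Agent.L0h1.KD.ty_cases q with h | h | h | h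
    · exact h.2.2
    · rw [h.1] at k1; omega
    · exact h.2.2
    · rw [h.1] at k1; omega
  refine ⟨k1, fun w g a hsq h7 hu => ?_⟩
  rw [sys7_dg hq0]
  obtain ⟨o1, o2, o3, o4⟩ := Pool.Agent.L0h2.P.od_facts hsq
  have e1 : ∑ r' ∈ (Pool.Agent.L0h2.P.od g).primeFactors, nr r' q =
      ∑ r' ∈ (Pool.Agent.L0h2.P.od g).primeFactors, if r' = r then 1 else 0 := by
    refine sum_congr rfl fun r' hr' => ?_
    have h2' := Pool.Agent.L0h2.P.pr_od hsq h7 r' hr'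
    exact k2 r' h2' (hu r' h2'.1 ((Pool.Agent.L0h2.P.dvd_od hsq h2'.1 h2'.2.1).1
      (Nat.dvd_of_mem_primeFactors hr')))
  rw [e1, sum_ite_eq' _ r fun _ => (1 : ZMod 2), k3]
  have e2 : (if r ∈ (Pool.Agent.L0h2.P.od g).primeFactors then (1 : ZMod 2) else 0) +
      (if g % 2 = 1 then 0 else if r = 2 then 1 else 0) = if r ∣ g then 1 else 0 := by
    by_cases hr2 : r = 2
    · rw [hr2, if_pos rfl, if_neg (fun h' => by
        have := Nat.dvd_of_mem_primeFactors h'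
        omega), zero_add]
      by_cases hg2 : g % 2 = 1
      · rw [if_pos hg2, if_neg (by omega)]
      · rw [if_neg hg2, if_pos (by omega)]
    · rw [if_neg hr2]
      have e3 : r ∈ (Pool.Agent.L0h2.P.od g).primeFactors ↔ r ∣ g := by
        rw [Nat.mem_primeFactors, Pool.Agent.L0h2.P.dvd_od hsq hr hr2]
        exact ⟨fun h' => h'.2.1, fun h' => ⟨hr, h', o1.ne_zero⟩⟩
      simp only [e3]
      split_ifs <;> simp
  rw [e2]
  have : ∀ x y : ZMod 2, x + y + y = x := by decide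
  exact this _ _

end

/-- different square-free numbers are separated by a prime -/
theorem sep_of {u ℓ g g' : ℕ} (hg : Squarefree g) (hg' : Squarefree g') (hℓ : ¬ ℓ ∣ g)
    (hℓ' : ¬ ℓ ∣ g') (hu : ∀ p, p.Prime → p ∣ g → p ∣ u) (hu' : ∀ p, p.Prime → p ∣ g' → p ∣ u)
    (hne : g ≠ g') : ∃ r, r.Prime ∧ r ∣ u ∧ r ≠ ℓ ∧
      (if r ∣ g then (1 : ZMod 2) else 0) ≠ if r ∣ g' then 1 else 0 := by
  by_contra hcon
  push Not at hcon
  apply hne
  have key : ∀ {g g' : ℕ}, Squarefree g → Squarefree g' → ¬ ℓ ∣ g →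
      (∀ p, p.Prime → p ∣ g → p ∣ u) →
      (∀ r, r.Prime → r ∣ u → r ≠ ℓ → (if r ∣ g then (1 : ZMod 2) else 0) =
        if r ∣ g' then 1 else 0) → g.primeFactors ⊆ g'.primeFactors := by
    intro g g' hg hg' hℓ hu hc p hp
    have hpp := Nat.prime_of_mem_primeFactors hp
    have hpd := Nat.dvd_of_mem_primeFactors hp
    have h1 := hc p hpp (hu p hpp hpd) (fun h' => hℓ (by rw [← h']; exact hpd))
    rw [if_pos hpd] at h1
    rw [Nat.mem_primeFactors]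
    refine ⟨hpp, ?_, hg'.ne_zero⟩
    by_contra hnd
    rw [if_neg hnd] at h1
    exact one_ne_zero h1
  rw [← Nat.prod_primeFactors_of_squarefree hg, ← Nat.prod_primeFactors_of_squarefree hg']
  rw [subset_antisymm (key hg hg' hℓ hu hcon)
    (key hg' hg hℓ' hu' fun r h1 h2 h3 => (hcon r h1 h2 h3).symm)]

/-- **The hypotheses `Hy` from the facts on the systems of the two fields**, the separating classes
being indexed by any finite type. -/
theorem hy_glue (hCSX : S_CSX) {t : ℕ} (s : Fin t → Sy) {u a : ℕ} (hc : Cp u a) (h84 : 84 ∣ u)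
    (ht : ∀ l, (s l).d.t < 4) (hrec : ∀ l, RecA (s l).d.f (s l).d.A)
    (hW : ∀ l, ∀ v ∈ (s l).W, PrO (s l).d.f v) (hWu : ∀ l p, some p ∈ (s l).W → p ∣ u)
    (hpar : ∀ l S, Cl u a S → (kW (s l) + kd (s l).d.f S) % 2 = 0)
    {I : Type} [Fintype I] (cl : I → ℕ) (fr : I → Bool) (x : Fin t → I → ZMod 2)
    (hcls : ∀ i p, p.Prime → p % (7 * u) = cl i → ty (fr i) p = 2 ∧ ∀ l l', (s l).d.f = fr i →
      (s l').d.f = fr i → dg (s l) p + x l i = dg (s l') p + x l' i)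
    (hclc : ∀ i, cl i < 7 * u ∧ (cl i).Coprime (7 * u))
    (hsep : ∀ l l', l ≠ l' → (s l).d.f = (s l').d.f → ∃ i, fr i = (s l).d.f ∧ x l i ≠ x l' i) :
    ∃ (n : ℕ) (cl : Fin n → ℕ) (fr : Fin n → Bool) (x : Fin t → Fin n → ZMod 2) (cs : ℕ),
      Hy s u a cl fr x cs := by
  obtain ⟨cs, c1, c2, c3⟩ := hCSX u h84 hc.pos
  set e := (Fintype.equivFin I).symm with he
  refine ⟨Fintype.card I, fun i => cl (e i), fun i => fr (e i), fun l i => x l (e i), cs, ?_⟩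
  refine ⟨hc, h84, ht, hrec, hW, hWu, hpar, fun i => hcls (e i), fun i => hclc (e i), ?_, c3,
    ⟨c1, c2⟩⟩
  intro l l' h1 h2
  obtain ⟨i, h3, h4⟩ := hsep l l' h1 h2
  refine ⟨e.symm i, ?_, ?_⟩
  · show fr (e (e.symm i)) = _
    rw [e.apply_symm_apply]
    exact h3
  · show x l (e (e.symm i)) ≠ x l' (e (e.symm i))
    rw [e.apply_symm_apply]
    exact h4

end Pool.Agent.L0h38.XF
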