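import Pool.Agent.L0h86.XF.StmL
import Pool.Agent.L0h38.XF.CEL7
import Pool.Agent.L0h1.EV.All

/-!
# Project XF (helper86), module CEL7: the statement `S_CEL false`
-/

set_option autoImplicit false
set_option linter.unusedSectionVars false
set_option linter.unusedVariables false

open scoped Classical

namespace Pool.Agent.L0h38.XF

open Finset
open Pool.Agent.Y698 Pool.Agent.Y698.SG
open Pool.Agent.L0h74.EV (QPw NSA qpw_of critA_iff)
open Pool.Agent.L0h4.TA (exists_w)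
open Pool.Agent.L0h1.EV (TT tt_iff)
open Pool.Agent.L0h86.XF

theorem nsa_tt {Qf Pf : ℕ → Finset ℕ} {w : ℕ → RR} (h : QPw Qf Pf w) {D : ℕ} (hsf : Squarefree D)
    (h7 : ¬ 7 ∣ D) : NSA Qf Pf w D ↔ TT D := by
  rw [← critA_iff h hsf h7]
  exact (tt_iff h hsf h7).symm

/-- **CEL7** -/
theorem t_CEL7 : S_CEL false := by
  obtain ⟨w, hw⟩ := exists_w
  have h := qpw_of hw
  refine ⟨fun q => lg (e7 (w q)), fun u a g hc h168 hg h7 hu _ => ?_⟩
  have h7' : ¬ 7 ∣ g := h7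
  have h4 : 4 ∣ u := (by norm_num : 4 ∣ 168).trans h168
  have h8 : 8 ∣ u := (by norm_num : 8 ∣ 168).trans h168
  have hu7 : 7 ∣ u := (by norm_num : 7 ∣ 168).trans h168
  have hao : a % 2 = 1 := hc.modd (Nat.mod_eq_of_lt hc.lt)
  refine ⟨sys7 w g a, ⟨rfl, sys7_t4, sys7_rec h, sys7_W hg h7', sys7_Wu hg h7' hu,
    sys7_par h4 hao hg h7', sys7_dgq⟩, fun m hm hma => ?_⟩
  have hcop : Nat.Coprime m u := by
    rw [Nat.coprime_iff_gcd_eq_one, Nat.gcd_comm, Nat.gcd_rec, hma]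
    exact hc.cop
  have hcg : Nat.Coprime g m := by
    rw [Nat.coprime_iff_gcd_eq_one]
    by_contra hne
    obtain ⟨p, hp, hd⟩ := Nat.exists_prime_and_dvd hne
    have h1 := Nat.dvd_gcd (hd.trans (Nat.gcd_dvd_right _ _))
      (hu p hp (hd.trans (Nat.gcd_dvd_left _ _)))
    rw [hcop] at h1
    exact hp.one_lt.ne' (Nat.dvd_one.1 h1)
  have hsq : Squarefree (g * m) := by
    rw [Nat.squarefree_mul hcg]
    exact ⟨hg, hm⟩
  have h7m : ¬ 7 ∣ g * m := by
    intro h1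
    rcases (Nat.Prime.dvd_mul (by norm_num)).1 h1 with h2 | h2
    · exact h7' h2
    · have h3 := Nat.dvd_gcd h2 hu7
      rw [hcop] at h3
      omega
  have e : Good false (g * m) ↔ TT (g * m) := Iff.rfl
  rw [e, ← nsa_tt h hsq h7m]
  exact nsa_sys7 h hc h8 hg h7' hu hm hma

end Pool.Agent.L0h38.XF
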